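import Pool.Agent.Q191.Tri.Main

set_option autoImplicit false

open scoped ENNReal

namespace Pool.Agent.Results.MP_071e18_gt.NotCosecant

open Q191.Tri

/-- There is a nondegenerate triangle `T = ABC` (sides 5, 5, 8) with `csc(θ/2) = √10 < 4` for its
smallest angle `θ`, while `M(T) ≥ 6`, even when only rotations and translations are allowed. -/
theorem result : ∃ A B C : Pl, (interior (triangle A B C)).Nonempty ∧
    1 / Real.sin (smallestAngle A B C / 2) = Real.sqrt 10 ∧
    6 ≤ Mdirect (triangle A B C) ∧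
    Mdirect (triangle A B C) ≤ M (triangle A B C) ∧
    ENNReal.ofReal (1 / Real.sin (smallestAngle A B C / 2)) < 4 ∧
    M (triangle A B C) ≠ ENNReal.ofReal (1 / Real.sin (smallestAngle A B C / 2)) := by
  have h4 : ENNReal.ofReal (1 / Real.sin (smallestAngle vA vB vC / 2)) < 4 := by
    rw [csc_eq]
    have : (4 : ℝ≥0∞) = ENNReal.ofReal 4 := by norm_num
    rw [this, ENNReal.ofReal_lt_ofReal_iff (by norm_num)]
    rw [Real.sqrt_lt' (by norm_num)]
    norm_num
  refine ⟨vA, vB, vC, int_nonempty, csc_eq, Mdirect_ge, Mdirect_le _, h4, ?_⟩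
  intro h
  have h6 : (6 : ℝ≥0∞) ≤ M (triangle vA vB vC) := Mdirect_ge.trans (Mdirect_le _)
  rw [h] at h6
  have h7 := lt_of_le_of_lt h6 h4
  norm_num at h7

end Pool.Agent.Results.MP_071e18_gt.NotCosecant
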